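import Pool.Agent.Helper355.HedgeF

set_option autoImplicit false

open scoped Topology RealInnerProductSpace ContDiff

namespace Pool.Agent.Results.MP_528454_gt.StarShaped

open Pool.Agent.Helper355.Hedge

/-- Both principal radii of curvature of the hedgehog are positive at the unit vector `u`: the
derivative of `x_h` at `u` is positive definite on the tangent plane of the sphere. -/
def PosAt (h : E3 → ℝ) (u : E3) : Prop :=
  ∀ v : E3, v ≠ 0 → ⟪u, v⟫ = 0 → 0 < ⟪fderiv ℝ (fun x => xh h (‖x‖⁻¹ • x)) u v, v⟫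

theorem posAt_iff {h : E3 → ℝ} (hs : Smooth h) {u : E3} (hu : ‖u‖ = 1) :
    PosAt h u ↔ Pos h u := by
  have hu0 : u ≠ 0 := ne_zero_of_unit hu
  constructor
  · intro hp v hv
    have h1 : 0 < ⟪fderiv ℝ (FF h) u (v - ⟪u, v⟫ • u), v - ⟪u, v⟫ • u⟫ := by
      refine hp _ (sub_ne_zero.2 (hv _)) ?_
      rw [inner_sub_right, real_inner_smul_right, inner_self_unit hu]
      ring
    rw [map_sub, map_smul, fderiv_FF_self hs hu0, smul_zero, sub_zero, inner_sub_right,
      real_inner_smul_right, inner_fderiv_self hs hu0, mul_zero, sub_zero] at h1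
    exact h1
  · intro hp v hv huv
    exact hp v (not_mul hu hv huv)

/-- Let `h` be a smooth odd function on the sphere. Suppose that the set of the unit vectors at
which both principal radii of curvature of the hedgehog are positive contains a point `e` and is
star-shaped with respect to `e`. Then the hedgehog has a singular point which is not a cuspidal
edge; in particular, if the hedgehog is generic, then it has a swallowtail. -/
theorem result (h : E3 → ℝ) (hs : Smooth h) (ho : IsOdd h) (e : E3) (he : ‖e‖ = 1)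
    (hpe : PosAt h e)
    (hstar : ∀ u w : E3, ‖u‖ = 1 → ‖w‖ = 1 → PosAt h u →
      (∃ α β : ℝ, 0 ≤ α ∧ 0 ≤ β ∧ w = α • e + β • u) → PosAt h w) :
    (∃ u : E3, ‖u‖ = 1 ∧ IsSing h u ∧ ¬ IsCuspEdge h u) ∧
      (IsGeneric h → ∃ u : E3, ‖u‖ = 1 ∧ IsSwallowtail h u) := by
  have main : ∃ u : E3, ‖u‖ = 1 ∧ IsSing h u ∧ ¬ IsCuspEdge h u := by
    refine star_main hs ho he ((posAt_iff hs he).1 hpe) ?_
    intro α β y x hα hβ hy hx hp hxy
    have hyn : 0 < ‖y‖ := norm_pos_iff.2 hy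
    have hxn : 0 < ‖x‖ := norm_pos_iff.2 hx
    have hy1 : ‖‖y‖⁻¹ • y‖ = 1 := by
      rw [norm_smul, norm_inv, norm_norm, inv_mul_cancel₀ hyn.ne']
    have hx1 : ‖‖x‖⁻¹ • x‖ = 1 := by
      rw [norm_smul, norm_inv, norm_norm, inv_mul_cancel₀ hxn.ne']
    have h1 : PosAt h (‖x‖⁻¹ • x) := by
      refine hstar (‖y‖⁻¹ • y) (‖x‖⁻¹ • x) hy1 hx1
        ((posAt_iff hs hy1).2 (hp.smul hs (inv_pos.2 hyn) hy))
        ⟨‖x‖⁻¹ * α, ‖x‖⁻¹ * (β * ‖y‖), by positivity, by positivity, ?_⟩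
      have h2 : y = ‖y‖ • (‖y‖⁻¹ • y) := by
        rw [smul_smul, mul_inv_cancel₀ hyn.ne', one_smul]
      have h3 : ‖x‖⁻¹ • x = ‖x‖⁻¹ • (α • e + β • y) := congrArg (fun z => ‖x‖⁻¹ • z) hxy
      rw [h3]
      have h4 : β • y = (β * ‖y‖) • (‖y‖⁻¹ • y) := by
        rw [smul_smul, mul_assoc, mul_inv_cancel₀ hyn.ne', mul_one]
      rw [h4]
      module
    have h2 := ((posAt_iff hs hx1).1 h1).smul hs hxn (ne_zero_of_unit hx1)
    rw [smul_smul, mul_inv_cancel₀ hxn.ne', one_smul] at h2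
    exact h2
  refine ⟨main, fun hgen => ?_⟩
  obtain ⟨u, hu, h1, h2⟩ := main
  rcases hgen u hu h1 with h3 | h3
  · exact absurd h3 h2
  · exact ⟨u, hu, h3⟩

end Pool.Agent.Results.MP_528454_gt.StarShaped
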